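import Mathlib

set_option autoImplicit false

/-!
Arithmetic circuits over the real numbers which are multilinear in some Boolean variables, and
their absolute values.
-/

namespace Pool.Agent.W933.DD

open Finset

/-- kinds of the gates of an arithmetic circuit with `s` gates -/
inductive AKind (s : ℕ) : Type
  | leaf : AKind s
  | mul (a b : Fin s) : AKind s
  | lin (α β : ℝ) (a b : Fin s) : AKind s

/-- Arithmetic circuits with `s` gates over the real numbers, restricted to Boolean values of the
variables `x i`, `i : Fin n`; the joint value of all further inputs is an element of `W`.
Gate `i` computes `val i`, and `scope i` is its set of `x`-variables.  A leaf computes an arbitrary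
real function which depends on at most two thirds of the `x`-variables (and on the further inputs).
The other gates read gates of smaller index; they are linear combinations, and products of gates
which have no `x`-variable in common.  The function `abs i` is the value of the same circuit in
which the coefficients and the values of the leaves are replaced by their absolute values (or by
larger numbers, in the case of the leaves). -/
structure ACirc (n s : ℕ) (W : Type) where
  kind : Fin s → AKind s
  scope : Fin s → Finset (Fin n)
  val : Fin s → (Fin n → Bool) → W → ℝ
  abs : Fin s → (Fin n → Bool) → W → ℝ
  leaf_ok : ∀ i, kind i = .leaf → 3 * (scope i).card ≤ 2 * n ∧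
    (∀ x y w, (∀ k ∈ scope i, x k = y k) → val i x w = val i y w ∧ abs i x w = abs i y w) ∧
    ∀ x w, |val i x w| ≤ abs i x w
  mul_ok : ∀ i a b, kind i = .mul a b → a < i ∧ b < i ∧ scope i = scope a ∪ scope b ∧
    Disjoint (scope a) (scope b) ∧
    ∀ x w, val i x w = val a x w * val b x w ∧ abs i x w = abs a x w * abs b x w
  lin_ok : ∀ i α β a b, kind i = .lin α β a b → a < i ∧ b < i ∧ scope i = scope a ∪ scope b ∧
    ∀ x w, val i x w = α * val a x w + β * val b x w ∧
      abs i x w = |α| * abs a x w + |β| * abs b x w

end Pool.Agent.W933.DD
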