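import Pool.Agent.W933.DD.CSR
import Pool.Agent.W933.DD.Form
import Pool.Agent.W933.DD.ArDefs

set_option autoImplicit false

/-!
Arithmetic circuits with bounded absolute value.
-/

namespace Pool.Agent.W933.DD

open Finset

variable {M n s : ℕ} {W : Type}

theorem ipR_sum (σ : Fin M × Fin 4 ≃ Fin n) {ι : Type} (t : Finset ι)
    (f : ι → (Fin n → Bool) → ℝ) :
    ipR σ (fun x => ∑ i ∈ t, f i x) = ∑ i ∈ t, ipR σ (f i) := by
  unfold ipR
  rw [Finset.sum_comm]
  apply Finset.sum_congr rfl
  intro x _
  rw [Finset.mul_sum]

theorem ipR_add (σ : Fin M × Fin 4 ≃ Fin n) (f g : (Fin n → Bool) → ℝ) :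
    ipR σ (fun x => f x + g x) = ipR σ f + ipR σ g := by
  unfold ipR
  rw [← Finset.sum_add_distrib]
  apply Finset.sum_congr rfl
  intro x _
  ring

theorem LOff.mono {A B : Finset (Fin n)} {h : (Fin n → Bool) → ℝ} (hAB : A ⊆ B)
    (hh : LOff B h) : LOff A h := by
  intro x y hxy
  apply hh
  intro i hi
  exact hxy i (fun h2 => hi (hAB h2))

namespace ACirc

variable (C : ACirc n s W)

/-- wide gates -/
def Wide (i : Fin s) : Prop := 2 * n < 3 * (C.scope i).card

theorem loc (i : Fin s) (x y : Fin n → Bool) (w : W)
    (h : ∀ k ∈ C.scope i, x k = y k) : C.val i x w = C.val i y w ∧ C.abs i x w = C.abs i y w := by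
  induction i using WellFoundedLT.induction with
  | ind i ih =>
    cases hk : C.kind i with
    | leaf => exact (C.leaf_ok i hk).2.1 x y w h
    | mul a b =>
      obtain ⟨h1, h2, h3, h4, h5⟩ := C.mul_ok i a b hk
      obtain ⟨a1, a2⟩ := ih a h1 (fun k hk => h k (by rw [h3]; exact mem_union_left _ hk))
      obtain ⟨b1, b2⟩ := ih b h2 (fun k hk => h k (by rw [h3]; exact mem_union_right _ hk))
      rw [(h5 x w).1, (h5 y w).1, (h5 x w).2, (h5 y w).2, a1, a2, b1, b2]
      exact ⟨rfl, rfl⟩
    | lin α β a b =>
      obtain ⟨h1, h2, h3, h5⟩ := C.lin_ok i α β a b hk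
      obtain ⟨a1, a2⟩ := ih a h1 (fun k hk => h k (by rw [h3]; exact mem_union_left _ hk))
      obtain ⟨b1, b2⟩ := ih b h2 (fun k hk => h k (by rw [h3]; exact mem_union_right _ hk))
      rw [(h5 x w).1, (h5 y w).1, (h5 x w).2, (h5 y w).2, a1, a2, b1, b2]
      exact ⟨rfl, rfl⟩

theorem val_le_abs (i : Fin s) (x : Fin n → Bool) (w : W) : |C.val i x w| ≤ C.abs i x w := by
  induction i using WellFoundedLT.induction with
  | ind i ih =>
    cases hk : C.kind i with
    | leaf => exact (C.leaf_ok i hk).2.2 x w
    | mul a b =>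
      obtain ⟨h1, h2, h3, h4, h5⟩ := C.mul_ok i a b hk
      rw [(h5 x w).1, (h5 x w).2, abs_mul]
      exact mul_le_mul (ih a h1) (ih b h2) (abs_nonneg _) (le_trans (abs_nonneg _) (ih a h1))
    | lin α β a b =>
      obtain ⟨h1, h2, h3, h5⟩ := C.lin_ok i α β a b hk
      rw [(h5 x w).1, (h5 x w).2]
      refine le_trans (abs_add_le _ _) ?_
      rw [abs_mul, abs_mul]
      exact add_le_add (mul_le_mul_of_nonneg_left (ih a h1) (abs_nonneg _))
        (mul_le_mul_of_nonneg_left (ih b h2) (abs_nonneg _))

theorem abs_nonneg' (i : Fin s) (x : Fin n → Bool) (w : W) : 0 ≤ C.abs i x w :=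
  le_trans (abs_nonneg _) (C.val_le_abs i x w)

theorem val_lon (w : W) (i : Fin s) : LOn (C.scope i) (fun x => C.val i x w) :=
  fun x y h => (C.loc i x y w h).1

open Classical in
/-- the narrow part of the value of a gate -/
noncomputable def nv (w : W) (i : Fin s) (x : Fin n → Bool) : ℝ :=
  if C.Wide i then 0 else C.val i x w

open Classical in
/-- the narrow part of the absolute value of a gate -/
noncomputable def na (w : W) (i : Fin s) (x : Fin n → Bool) : ℝ :=
  if C.Wide i then 0 else C.abs i x w

open Classical in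
/-- the local contribution of a gate -/
noncomputable def E (w : W) (i : Fin s) (x : Fin n → Bool) : ℝ :=
  match C.kind i with
  | .leaf => 0
  | .mul a b => C.nv w a x * C.nv w b x
  | .lin α β a b => α * C.nv w a x + β * C.nv w b x

open Classical in
/-- the absolute value of the local contribution of a gate -/
noncomputable def F (w : W) (i : Fin s) (x : Fin n → Bool) : ℝ :=
  match C.kind i with
  | .leaf => 0
  | .mul a b => C.na w a x * C.na w b x
  | .lin α β a b => |α| * C.na w a x + |β| * C.na w b x

theorem na_nonneg (w : W) (i : Fin s) (x : Fin n → Bool) : 0 ≤ C.na w i x := by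
  unfold na
  split
  · exact le_refl _
  · exact C.abs_nonneg' i x w

theorem nv_le_na (w : W) (i : Fin s) (x : Fin n → Bool) : |C.nv w i x| ≤ C.na w i x := by
  unfold na nv
  split
  · simp
  · exact C.val_le_abs i x w

theorem na_le_abs (w : W) (i : Fin s) (x : Fin n → Bool) : C.na w i x ≤ C.abs i x w := by
  unfold na
  split
  · exact C.abs_nonneg' i x w
  · exact le_refl _

theorem na_loc (w : W) (i : Fin s) (x y : Fin n → Bool) (h : ∀ k ∈ C.scope i, x k = y k) :
    C.na w i x = C.na w i y := by
  unfold na
  rw [(C.loc i x y w h).2]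

theorem nv_loc (w : W) (i : Fin s) (x y : Fin n → Bool) (h : ∀ k ∈ C.scope i, x k = y k) :
    C.nv w i x = C.nv w i y := by
  unfold nv
  rw [(C.loc i x y w h).1]

theorem F_nonneg (w : W) (i : Fin s) (x : Fin n → Bool) : 0 ≤ C.F w i x := by
  unfold F
  cases C.kind i with
  | leaf => exact le_refl _
  | mul a b => exact mul_nonneg (C.na_nonneg w a x) (C.na_nonneg w b x)
  | lin α β a b =>
    exact add_nonneg (mul_nonneg (abs_nonneg _) (C.na_nonneg w a x))
      (mul_nonneg (abs_nonneg _) (C.na_nonneg w b x))

open Classical in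
/-- the decomposition of a gate -/
structure Dec (w : W) (v : Fin s) (K L : Fin s → (Fin n → Bool) → ℝ) : Prop where
  le : ∀ i x, |K i x| ≤ L i x
  offK : ∀ i, LOff (C.scope i) (K i)
  offL : ∀ i, LOff (C.scope i) (L i)
  supp : ∀ i x, L i x ≠ 0 → i ≤ v ∧ C.scope i ⊆ C.scope v ∧ C.Wide i
  eqK : ∀ x, (if C.Wide v then C.val v x w else 0) = ∑ i, K i x * C.E w i x
  leL : ∀ x, ∑ i, L i x * C.F w i x ≤ (if C.Wide v then C.abs v x w else 0)

open Classical in
theorem dec_direct (w : W) (v : Fin s) (hv : C.Wide v)
    (hE : ∀ x, C.E w v x = C.val v x w) (hF : ∀ x, C.F w v x ≤ C.abs v x w) :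
    ∃ K L, C.Dec w v K L := by
  refine ⟨fun i _ => if i = v then 1 else 0, fun i _ => if i = v then 1 else 0,
    ?_, fun _ _ _ _ => rfl, fun _ _ _ _ => rfl, ?_, ?_, ?_⟩
  · intro i x
    by_cases h : i = v <;> simp [h]
  · intro i x h
    by_cases hi : i = v
    · rw [hi]
      exact ⟨le_refl _, subset_refl _, hv⟩
    · exact absurd (if_neg hi) h
  · intro x
    rw [if_pos hv, Finset.sum_eq_single v]
    · simp [hE]
    · intro i _ hi
      simp [hi]
    · intro h
      exact absurd (mem_univ v) h
  · intro x
    rw [if_pos hv, Finset.sum_eq_single v]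
    · simp [hF]
    · intro i _ hi
      simp [hi]
    · intro h
      exact absurd (mem_univ v) h

open Classical in
theorem dec_mul (w : W) (v a b : Fin s) (hv : C.Wide v)
    (ha : C.Wide a) (hav : a ≤ v) (hs : C.scope a ⊆ C.scope v)
    (hdis : Disjoint (C.scope a) (C.scope b))
    (hval : ∀ x, C.val v x w = C.val a x w * C.val b x w)
    (habs : ∀ x, C.abs v x w = C.abs a x w * C.abs b x w)
    (hH : ∃ K L, C.Dec w a K L) : ∃ K L, C.Dec w v K L := by
  obtain ⟨K, L, hD⟩ := hH
  refine ⟨fun i x => K i x * C.val b x w, fun i x => L i x * C.abs b x w, ?_, ?_, ?_, ?_, ?_, ?_⟩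
  · intro i x
    show |K i x * C.val b x w| ≤ L i x * C.abs b x w
    rw [abs_mul]
    exact mul_le_mul (hD.le i x) (C.val_le_abs b x w) (abs_nonneg _)
      (le_trans (abs_nonneg _) (hD.le i x))
  · intro i x y hxy
    show K i x * C.val b x w = K i y * C.val b y w
    by_cases hne : ∃ z, L i z ≠ 0
    · obtain ⟨z, hz⟩ := hne
      have hs2 := (hD.supp i z hz).2.1
      rw [hD.offK i x y hxy, (C.loc b x y w (fun k hk => hxy k (fun h3 =>
        (disjoint_left.1 hdis) (hs2 h3) hk))).1]
    · have h0 : ∀ z, K i z = 0 := by
        intro z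
        have h1 : L i z = 0 := by
          by_contra h
          exact hne ⟨z, h⟩
        have := hD.le i z
        rw [h1] at this
        exact abs_eq_zero.1 (le_antisymm this (abs_nonneg _))
      rw [h0, h0]
      ring
  · intro i x y hxy
    show L i x * C.abs b x w = L i y * C.abs b y w
    by_cases hne : ∃ z, L i z ≠ 0
    · obtain ⟨z, hz⟩ := hne
      have hs2 := (hD.supp i z hz).2.1
      rw [hD.offL i x y hxy, (C.loc b x y w (fun k hk => hxy k (fun h3 =>
        (disjoint_left.1 hdis) (hs2 h3) hk))).2]
    · have h0 : ∀ z, L i z = 0 := by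
        intro z
        by_contra h
        exact hne ⟨z, h⟩
      rw [h0, h0]
      ring
  · intro i x h
    have : L i x ≠ 0 := fun h0 => h (by show L i x * C.abs b x w = 0; rw [h0, zero_mul])
    obtain ⟨q1, q2, q3⟩ := hD.supp i x this
    exact ⟨le_trans q1 hav, subset_trans q2 hs, q3⟩
  · intro x
    have := hD.eqK x
    rw [if_pos ha] at this
    rw [if_pos hv, hval, this, Finset.sum_mul]
    apply Finset.sum_congr rfl
    intro i _
    ring
  · intro x
    have := hD.leL x
    rw [if_pos ha] at this
    rw [if_pos hv, habs]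
    calc ∑ i, L i x * C.abs b x w * C.F w i x = (∑ i, L i x * C.F w i x) * C.abs b x w := by
          rw [Finset.sum_mul]
          apply Finset.sum_congr rfl
          intro i _
          ring
      _ ≤ _ := mul_le_mul_of_nonneg_right this (C.abs_nonneg' b x w)

open Classical in
theorem dec_lin (w : W) (v a b : Fin s) (α β : ℝ) (hv : C.Wide v)
    (hk : C.kind v = .lin α β a b)
    (hHa : ∃ K L, C.Dec w a K L) (hHb : ∃ K L, C.Dec w b K L) : ∃ K L, C.Dec w v K L := by
  obtain ⟨Ka, La, hDa⟩ := hHa
  obtain ⟨Kb, Lb, hDb⟩ := hHb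
  obtain ⟨hav, hbv, hs, hval⟩ := C.lin_ok v α β a b hk
  have hsa : C.scope a ⊆ C.scope v := by rw [hs]; exact subset_union_left
  have hsb : C.scope b ⊆ C.scope v := by rw [hs]; exact subset_union_right
  refine ⟨fun i x => α * Ka i x + β * Kb i x + (if i = v then 1 else 0),
    fun i x => |α| * La i x + |β| * Lb i x + (if i = v then 1 else 0), ?_, ?_, ?_, ?_, ?_, ?_⟩
  · intro i x
    show |α * Ka i x + β * Kb i x + (if i = v then 1 else 0)| ≤
      |α| * La i x + |β| * Lb i x + (if i = v then 1 else 0)
    refine le_trans (abs_add_le _ _) (add_le_add (le_trans (abs_add_le _ _) ?_) ?_)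
    · rw [abs_mul, abs_mul]
      exact add_le_add (mul_le_mul_of_nonneg_left (hDa.le i x) (abs_nonneg _))
        (mul_le_mul_of_nonneg_left (hDb.le i x) (abs_nonneg _))
    · by_cases h : i = v <;> simp [h]
  · intro i x y hxy
    show α * Ka i x + β * Kb i x + _ = α * Ka i y + β * Kb i y + _
    rw [hDa.offK i x y hxy, hDb.offK i x y hxy]
  · intro i x y hxy
    show |α| * La i x + |β| * Lb i x + _ = |α| * La i y + |β| * Lb i y + _
    rw [hDa.offL i x y hxy, hDb.offL i x y hxy]
  · intro i x h
    by_cases hi : i = v
    · rw [hi]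
      exact ⟨le_refl _, subset_refl _, hv⟩
    by_cases h1 : La i x ≠ 0
    · obtain ⟨q1, q2, q3⟩ := hDa.supp i x h1
      exact ⟨le_trans q1 hav.le, subset_trans q2 hsa, q3⟩
    by_cases h2 : Lb i x ≠ 0
    · obtain ⟨q1, q2, q3⟩ := hDb.supp i x h2
      exact ⟨le_trans q1 hbv.le, subset_trans q2 hsb, q3⟩
    exfalso
    apply h
    show |α| * La i x + |β| * Lb i x + (if i = v then 1 else 0) = 0
    push Not at h1 h2
    rw [h1, h2, if_neg hi]
    ring
  · intro x
    have ea := hDa.eqK x
    have eb := hDb.eqK x
    have e3 : ∑ i, (if i = v then (1 : ℝ) else 0) * C.E w i x =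
        α * C.nv w a x + β * C.nv w b x := by
      rw [Finset.sum_eq_single v]
      · unfold E
        rw [hk]
        simp
      · intro i _ hi
        simp [hi]
      · intro h
        exact absurd (mem_univ v) h
    rw [if_pos hv, (hval x w).1]
    simp only [add_mul, Finset.sum_add_distrib]
    rw [e3]
    have e4 : ∑ i, α * Ka i x * C.E w i x = α * ∑ i, Ka i x * C.E w i x := by
      rw [Finset.mul_sum]
      exact Finset.sum_congr rfl (fun i _ => by ring)
    have e5 : ∑ i, β * Kb i x * C.E w i x = β * ∑ i, Kb i x * C.E w i x := by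
      rw [Finset.mul_sum]
      exact Finset.sum_congr rfl (fun i _ => by ring)
    rw [e4, e5, ← ea, ← eb]
    unfold nv
    by_cases h1 : C.Wide a <;> by_cases h2 : C.Wide b <;>
      simp only [h1, h2, if_true, if_false] <;> ring
  · intro x
    have ea := hDa.leL x
    have eb := hDb.leL x
    have e3 : ∑ i, (if i = v then (1 : ℝ) else 0) * C.F w i x =
        |α| * C.na w a x + |β| * C.na w b x := by
      rw [Finset.sum_eq_single v]
      · unfold F
        rw [hk]
        simp
      · intro i _ hi
        simp [hi]
      · intro h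
        exact absurd (mem_univ v) h
    rw [if_pos hv, (hval x w).2]
    simp only [add_mul, Finset.sum_add_distrib]
    rw [e3]
    have e4 : ∑ i, |α| * La i x * C.F w i x = |α| * ∑ i, La i x * C.F w i x := by
      rw [Finset.mul_sum]
      exact Finset.sum_congr rfl (fun i _ => by ring)
    have e5 : ∑ i, |β| * Lb i x * C.F w i x = |β| * ∑ i, Lb i x * C.F w i x := by
      rw [Finset.mul_sum]
      exact Finset.sum_congr rfl (fun i _ => by ring)
    rw [e4, e5]
    have i1 := mul_le_mul_of_nonneg_left ea (abs_nonneg α)
    have i2 := mul_le_mul_of_nonneg_left eb (abs_nonneg β)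
    have j1 : |α| * C.na w a x + |α| * (if C.Wide a then C.abs a x w else 0) =
        |α| * C.abs a x w := by
      unfold na
      by_cases h1 : C.Wide a <;> simp [h1]
    have j2 : |β| * C.na w b x + |β| * (if C.Wide b then C.abs b x w else 0) =
        |β| * C.abs b x w := by
      unfold na
      by_cases h1 : C.Wide b <;> simp [h1]
    linarith

open Classical in
theorem dec (w : W) (v : Fin s) : ∃ K L, C.Dec w v K L := by
  induction v using WellFoundedLT.induction with
  | ind v ih =>
    by_cases hv : C.Wide v
    · cases hk : C.kind v with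
      | leaf =>
        have := (C.leaf_ok v hk).1
        unfold Wide at hv
        omega
      | mul a b =>
        obtain ⟨h1, h2, h3, h4, h5⟩ := C.mul_ok v a b hk
        by_cases ha : C.Wide a
        · exact C.dec_mul w v a b hv ha h1.le (by rw [h3]; exact subset_union_left) h4
            (fun x => (h5 x w).1) (fun x => (h5 x w).2) (ih a h1)
        by_cases hb : C.Wide b
        · exact C.dec_mul w v b a hv hb h2.le (by rw [h3]; exact subset_union_right) h4.symm
            (fun x => by rw [(h5 x w).1, mul_comm]) (fun x => by rw [(h5 x w).2, mul_comm])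
            (ih b h2)
        · apply C.dec_direct w v hv
          · intro x
            unfold E nv
            rw [hk]
            simp only [ha, hb, if_false]
            rw [(h5 x w).1]
          · intro x
            unfold F na
            rw [hk]
            simp only [ha, hb, if_false]
            rw [(h5 x w).2]
      | lin α β a b =>
        obtain ⟨h1, h2, h3, h5⟩ := C.lin_ok v α β a b hk
        exact C.dec_lin w v a b α β hv hk (ih a h1) (ih b h2)
    · refine ⟨fun _ _ => 0, fun _ _ => 0, fun _ _ => by simp, fun _ _ _ _ => rfl,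
        fun _ _ _ _ => rfl, fun _ _ h => absurd rfl h, ?_, ?_⟩
      · intro x
        rw [if_neg hv]
        simp
      · intro x
        rw [if_neg hv]
        simp

/-- two sets for every gate -/
structure Sets (om : (Fin M × Fin 4 ≃ Fin n) → W) (i : Fin s) (A1 A2 : Finset (Fin n)) :
    Prop where
  b1 : Bal A1
  b2 : Bal A2
  wide : C.Wide i → ∀ (σ : Fin M × Fin 4 ≃ Fin n) (B : ℝ) (K L : (Fin n → Bool) → ℝ), 0 < B →
    (∀ x, |K x| ≤ L x) → LOff (C.scope i) K → LOff (C.scope i) L →
    (∀ x, L x * C.F (om σ) i x ≤ B) →
      |ipR σ (fun x => K x * C.E (om σ) i x)| ≤ B * (R σ A1 + R σ A2)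
  sm : ¬ C.Wide i → ∀ (σ : Fin M × Fin 4 ≃ Fin n) (B : ℝ), 0 < B →
    (∀ x, C.abs i x (om σ) ≤ B) →
      |ipR σ (fun x => C.val i x (om σ))| ≤ B * (R σ A1 + R σ A2)

/-- a term with one narrow factor -/
theorem narrow_term (hn : 2 ≤ n) (i c : Fin s) (hc : C.scope c ⊆ C.scope i)
    (hi : 2 * n ≤ 3 * (C.scope i).card) :
    ∃ A : Finset (Fin n), Bal A ∧ ∀ (w : W) (σ : Fin M × Fin 4 ≃ Fin n) (B : ℝ)
      (K L : (Fin n → Bool) → ℝ), 0 < B → (∀ x, |K x| ≤ L x) →
      LOff (C.scope i) K → LOff (C.scope i) L → (∀ x, L x * C.na w c x ≤ B) →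
        |ipR σ (fun x => K x * C.nv w c x)| ≤ B * R σ A := by
  classical
  by_cases hL : C.Wide c
  · obtain ⟨A, _, _, hA⟩ := exists_bal hn (empty_subset (C.scope i)) (by simp) hi
    refine ⟨A, hA, fun w σ B K L hB _ _ _ _ => ?_⟩
    have e : ipR σ (fun x => K x * C.nv w c x) = 0 := by
      unfold ipR
      apply Finset.sum_eq_zero
      intro x _
      show (sgn σ x : ℝ) * (K x * C.nv w c x) = 0
      unfold nv
      rw [if_pos hL]
      ring
    rw [e, abs_zero]
    exact mul_nonneg hB.le (R_nonneg _ _)
  · have hL' : ¬ 2 * n < 3 * (C.scope c).card := hL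
    obtain ⟨A, h1, h2, hA⟩ := exists_bal hn hc (by omega) hi
    refine ⟨A, hA, fun w σ B K L hB hKL hK hLo hb => ?_⟩
    have e : (fun x => K x * C.nv w c x) = fun x => C.nv w c x * K x := by
      funext x
      ring
    rw [e]
    apply ipR_le σ A (C.nv w c) K B hB
    · intro x y hxy
      exact C.nv_loc w c x y (fun k hk => hxy k (h1 hk))
    · exact hK.mono h2
    · intro x y
      -- combine `x` on the scope of `c` with `y` outside the scope of `i`
      have e1 : C.na w c (mix (C.scope c) x y) = C.na w c x := by
        apply C.na_loc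
        intro k hk
        simp [mix, hk]
      have e2 : L (mix (C.scope c) x y) = L y := by
        apply hLo
        intro k hk
        simp [mix, show k ∉ C.scope c from fun h => hk (hc h)]
      have h3 := hb (mix (C.scope c) x y)
      rw [e1, e2] at h3
      calc |C.nv w c x| * |K y| ≤ C.na w c x * L y :=
            mul_le_mul (C.nv_le_na w c x) (hKL y) (abs_nonneg _) (C.na_nonneg w c x)
        _ = L y * C.na w c x := mul_comm _ _
        _ ≤ B := h3

theorem exists_sets (om : (Fin M × Fin 4 ≃ Fin n) → W) (hn : 2 ≤ n) (i : Fin s) :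
    ∃ A1 A2, C.Sets om i A1 A2 := by
  classical
  by_cases hi : C.Wide i
  · have hi' : 2 * n ≤ 3 * (C.scope i).card := by unfold Wide at hi; omega
    cases hk : C.kind i with
    | leaf =>
      have := (C.leaf_ok i hk).1
      unfold Wide at hi
      omega
    | mul a b =>
      obtain ⟨h1, h2, h3, h4, h5⟩ := C.mul_ok i a b hk
      have hcard : (C.scope a).card + (C.scope b).card = (C.scope i).card := by
        rw [h3, card_union_of_disjoint h4]
      by_cases hab : C.Wide a ∨ C.Wide b
      · obtain ⟨A, _, _, hA⟩ := exists_bal hn (empty_subset (C.scope i)) (by simp) hi'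
        refine ⟨A, A, hA, hA, ?_, fun h => absurd hi h⟩
        intro _ σ B K L hB _ _ _ _
        have e : ipR σ (fun x => K x * C.E (om σ) i x) = 0 := by
          unfold ipR
          apply Finset.sum_eq_zero
          intro x _
          show (sgn σ x : ℝ) * (K x * C.E (om σ) i x) = 0
          unfold E nv
          rw [hk]
          rcases hab with h | h <;> simp [h]
        rw [e, abs_zero]
        exact mul_nonneg hB.le (add_nonneg (R_nonneg _ _) (R_nonneg _ _))
      · push Not at hab
        have ha : ¬ 2 * n < 3 * (C.scope a).card := hab.1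
        have hb : ¬ 2 * n < 3 * (C.scope b).card := hab.2
        have hiL : 2 * n < 3 * (C.scope i).card := hi
        have hE : ∀ w x, C.E w i x = C.val a x w * C.val b x w := by
          intro w x
          unfold E nv
          rw [hk]
          simp only [hab.1, hab.2, if_false]
        have hF : ∀ w x, C.F w i x = C.abs a x w * C.abs b x w := by
          intro w x
          unfold F na
          rw [hk]
          simp only [hab.1, hab.2, if_false]
        -- the general estimate for an order of the factors
        have gen : ∀ p q : Fin s, Disjoint (C.scope p) (C.scope q) → C.scope p ⊆ C.scope i →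
            (∀ w x, C.E w i x = C.val p x w * C.val q x w) →
            (∀ w x, C.F w i x = C.abs p x w * C.abs q x w) →
            ∀ (σ : Fin M × Fin 4 ≃ Fin n) (B : ℝ) (K L : (Fin n → Bool) → ℝ), 0 < B →
            (∀ x, |K x| ≤ L x) → LOff (C.scope i) K → LOff (C.scope i) L →
            (∀ x, L x * C.F (om σ) i x ≤ B) →
            |ipR σ (fun x => K x * C.E (om σ) i x)| ≤ B * R σ (C.scope p) := by
          intro p q hpq hpi hE hF σ B K L hB hKL hK hL hb
          have e : (fun x => K x * C.E (om σ) i x) =
              fun x => C.val p x (om σ) * (K x * C.val q x (om σ)) := by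
            funext x
            rw [hE]
            ring
          rw [e]
          apply ipR_le σ (C.scope p) (fun x => C.val p x (om σ))
            (fun x => K x * C.val q x (om σ)) B hB
          · exact C.val_lon (om σ) p
          · intro x y hxy
            show K x * C.val q x (om σ) = K y * C.val q y (om σ)
            rw [(hK.mono hpi) x y hxy, (C.loc q x y (om σ) (fun k hk => hxy k (fun h =>
              (disjoint_left.1 hpq) h hk))).1]
          · intro x y
            have e1 : C.abs p (mix (C.scope p) x y) (om σ) = C.abs p x (om σ) := by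
              apply (C.loc p _ _ (om σ) _).2
              intro k hk
              simp [mix, hk]
            have e2 : C.abs q (mix (C.scope p) x y) (om σ) = C.abs q y (om σ) := by
              apply (C.loc q _ _ (om σ) _).2
              intro k hk
              have : k ∉ C.scope p := fun h => (disjoint_left.1 hpq) h hk
              simp [mix, this]
            have e3 : L (mix (C.scope p) x y) = L y := by
              apply (hL.mono hpi)
              intro k hk
              simp [mix, hk]
            have h3 := hb (mix (C.scope p) x y)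
            rw [hF, e1, e2, e3] at h3
            show |C.val p x (om σ)| * |K y * C.val q y (om σ)| ≤ B
            rw [abs_mul]
            calc |C.val p x (om σ)| * (|K y| * |C.val q y (om σ)|)
                ≤ C.abs p x (om σ) * (L y * C.abs q y (om σ)) :=
                  mul_le_mul (C.val_le_abs p x _)
                    (mul_le_mul (hKL y) (C.val_le_abs q y _) (abs_nonneg _)
                      (le_trans (abs_nonneg _) (hKL y)))
                    (mul_nonneg (abs_nonneg _) (abs_nonneg _)) (C.abs_nonneg' p x _)
              _ = L y * (C.abs p x (om σ) * C.abs q y (om σ)) := by ring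
              _ ≤ B := h3
        rcases le_total (C.scope b).card (C.scope a).card with hc | hc
        · have hB : Bal (C.scope a) := by unfold Bal; omega
          refine ⟨C.scope a, C.scope a, hB, hB, ?_, fun h => absurd hi h⟩
          intro _ σ B K L hB0 hKL hK hL hb
          have := gen a b h4 (by rw [h3]; exact subset_union_left) hE hF σ B K L hB0 hKL hK hL hb
          have p := mul_nonneg hB0.le (R_nonneg σ (C.scope a))
          linarith
        · have hB : Bal (C.scope b) := by unfold Bal; omega
          refine ⟨C.scope b, C.scope b, hB, hB, ?_, fun h => absurd hi h⟩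
          intro _ σ B K L hB0 hKL hK hL hb
          have := gen b a h4.symm (by rw [h3]; exact subset_union_right)
            (fun w x => by rw [hE, mul_comm]) (fun w x => by rw [hF, mul_comm])
            σ B K L hB0 hKL hK hL hb
          have p := mul_nonneg hB0.le (R_nonneg σ (C.scope b))
          linarith
    | lin α β a b =>
      obtain ⟨h1, h2, h3, h5⟩ := C.lin_ok i α β a b hk
      obtain ⟨A1, hA1, hb1⟩ := C.narrow_term (M := M) hn i a
        (by rw [h3]; exact subset_union_left) hi'
      obtain ⟨A2, hA2, hb2⟩ := C.narrow_term (M := M) hn i b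
        (by rw [h3]; exact subset_union_right) hi'
      refine ⟨A1, A2, hA1, hA2, ?_, fun h => absurd hi h⟩
      intro _ σ B K L hB hKL hK hL hb
      have e : (fun x => K x * C.E (om σ) i x) =
          fun x => (α * K x) * C.nv (om σ) a x + (β * K x) * C.nv (om σ) b x := by
        funext x
        unfold E
        rw [hk]
        ring
      have hFx : ∀ x, C.F (om σ) i x = |α| * C.na (om σ) a x + |β| * C.na (om σ) b x := by
        intro x
        unfold F
        rw [hk]
      rw [e, ipR_add, mul_add]
      refine le_trans (abs_add_le _ _) (add_le_add ?_ ?_)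
      · apply hb1 (om σ) σ B (fun x => α * K x) (fun x => |α| * L x) hB
        · intro x
          show |α * K x| ≤ |α| * L x
          rw [abs_mul]
          exact mul_le_mul_of_nonneg_left (hKL x) (abs_nonneg _)
        · intro x y hxy
          show α * K x = α * K y
          rw [hK x y hxy]
        · intro x y hxy
          show |α| * L x = |α| * L y
          rw [hL x y hxy]
        · intro x
          have := hb x
          rw [hFx] at this
          have q := mul_nonneg (le_trans (abs_nonneg _) (hKL x))
            (mul_nonneg (abs_nonneg β) (C.na_nonneg (om σ) b x))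
          nlinarith
      · apply hb2 (om σ) σ B (fun x => β * K x) (fun x => |β| * L x) hB
        · intro x
          show |β * K x| ≤ |β| * L x
          rw [abs_mul]
          exact mul_le_mul_of_nonneg_left (hKL x) (abs_nonneg _)
        · intro x y hxy
          show β * K x = β * K y
          rw [hK x y hxy]
        · intro x y hxy
          show |β| * L x = |β| * L y
          rw [hL x y hxy]
        · intro x
          have := hb x
          rw [hFx] at this
          have q := mul_nonneg (le_trans (abs_nonneg _) (hKL x))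
            (mul_nonneg (abs_nonneg α) (C.na_nonneg (om σ) a x))
          nlinarith
  · have hi' : ¬ 2 * n < 3 * (C.scope i).card := hi
    obtain ⟨A, h1, h2, hA⟩ := exists_bal hn (subset_univ (C.scope i)) (by omega)
      (by simp; omega)
    refine ⟨A, A, hA, hA, fun h => absurd h hi, ?_⟩
    intro _ σ B hB hb
    have e : (fun x => C.val i x (om σ)) = fun x => C.val i x (om σ) * 1 := by
      funext x
      ring
    rw [e]
    have := ipR_le σ A (fun x => C.val i x (om σ)) (fun _ => 1) B hB
      (fun x y hxy => (C.val_lon (om σ) i) x y (fun k hk => hxy k (h1 hk)))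
      (fun _ _ _ => rfl) (fun x y => by
        simp only [abs_one, mul_one]
        exact le_trans (C.val_le_abs i x _) (hb x))
    have p := mul_nonneg hB.le (R_nonneg σ A)
    linarith

end ACirc

theorem tgt_cases (σ : Fin M × Fin 4 ≃ Fin n) (x : Fin n → Bool) :
    (tgt σ x : ℝ) = ∏ j, (1 - ∏ i, (if x (σ (j, i)) = true then (1 : ℝ) else 0)) := by
  unfold tgt
  push_cast
  apply Finset.prod_congr rfl
  intro j _
  by_cases h : ∀ i, blk σ x j i = true
  · rw [if_pos h]
    have : ∀ i, x (σ (j, i)) = true := h
    simp [this]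
  · rw [if_neg h]
    push Not at h
    obtain ⟨i, hi⟩ := h
    have hi' : x (σ (j, i)) ≠ true := hi
    rw [Finset.prod_eq_zero (mem_univ i) (if_neg hi')]
    ring

/-- the lower bound for arithmetic circuits, general form -/
theorem arith_bound (hM : 1 ≤ M) (C : ACirc (4 * M) s W) (out : Fin s)
    (om : (Fin M × Fin 4 ≃ Fin (4 * M)) → W) (B : ℝ)
    (hval : ∀ σ x, C.val out x (om σ) = tgt σ x)
    (habs : ∀ σ x, C.abs out x (om σ) ≤ B) :
    (225 : ℝ) ^ M ≤ 4 * (s * B) ^ 2 * ((4 * M + 1) * 217 ^ M) := by
  classical
  have σ0 : Fin M × Fin 4 ≃ Fin (4 * M) := finProdFinEquiv.trans (finCongr (by ring))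
  have hB : 0 < B := by
    have h1 := habs σ0 (fun _ => false)
    have h2 := C.val_le_abs out (fun _ => false) (om σ0)
    rw [hval] at h2
    have h3 : (tgt σ0 (fun _ => false) : ℝ) = 1 := by
      rw [tgt_cases]
      simp
    rw [h3] at h2
    have h4 : |(1 : ℝ)| = 1 := abs_one
    linarith
  choose A1 A2 hA using C.exists_sets (M := M) (n := 4 * M) om (by omega)
  have key : ∀ σ : Fin M × Fin 4 ≃ Fin (4 * M),
      (15 : ℝ) ^ M ≤ B * ∑ i, (R σ (A1 i) + R σ (A2 i)) := by
    intro σ
    have hRnn : ∀ i, 0 ≤ R σ (A1 i) + R σ (A2 i) := fun i =>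
      add_nonneg (R_nonneg _ _) (R_nonneg _ _)
    have e : ipR σ (fun x => C.val out x (om σ)) = 15 ^ M := by
      unfold ipR
      have := sum_tgt σ
      have h2 : ((∑ x, sgn σ x * tgt σ x : ℤ) : ℝ) = 15 ^ M := by
        rw [this]
        push_cast
        rfl
      rw [← h2]
      push_cast
      apply Finset.sum_congr rfl
      intro x _
      show (sgn σ x : ℝ) * C.val out x (om σ) = _
      rw [hval]
    have e' : (15 : ℝ) ^ M ≤ |ipR σ (fun x => C.val out x (om σ))| := by
      rw [e]
      exact le_abs_self _
    refine le_trans e' ?_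
    by_cases ho : C.Wide out
    · obtain ⟨K, L, hD⟩ := C.dec (om σ) out
      have e1 : (fun x => C.val out x (om σ)) = fun x => ∑ i, K i x * C.E (om σ) i x := by
        funext x
        have := hD.eqK x
        rw [if_pos ho] at this
        exact this
      have hLb : ∀ i x, L i x * C.F (om σ) i x ≤ B := by
        intro i x
        have h1 := hD.leL x
        rw [if_pos ho] at h1
        have h2 : L i x * C.F (om σ) i x ≤ ∑ i, L i x * C.F (om σ) i x :=
          Finset.single_le_sum (f := fun i => L i x * C.F (om σ) i x)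
            (fun j _ => mul_nonneg (le_trans (abs_nonneg _) (hD.le j x)) (C.F_nonneg _ j x))
            (mem_univ i)
        exact le_trans h2 (le_trans h1 (habs σ x))
      rw [e1, ipR_sum, Finset.mul_sum]
      refine le_trans (Finset.abs_sum_le_sum_abs _ _) ?_
      apply Finset.sum_le_sum
      intro i _
      by_cases hi : C.Wide i
      · exact (hA i).wide hi σ B (K i) (L i) hB (hD.le i) (hD.offK i) (hD.offL i) (hLb i)
      · have h0 : ∀ x, K i x = 0 := by
          intro x
          have h1 : L i x = 0 := by
            by_contra h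
            exact hi (hD.supp i x h).2.2
          have := hD.le i x
          rw [h1] at this
          exact abs_eq_zero.1 (le_antisymm this (abs_nonneg _))
        have e2 : ipR σ (fun x => K i x * C.E (om σ) i x) = 0 := by
          unfold ipR
          apply Finset.sum_eq_zero
          intro x _
          show (sgn σ x : ℝ) * (K i x * C.E (om σ) i x) = 0
          rw [h0]
          ring
        show |ipR σ (fun x => K i x * C.E (om σ) i x)| ≤ _
        rw [e2, abs_zero]
        exact mul_nonneg hB.le (hRnn i)
    · have h1 := (hA out).sm ho σ B hB (habs σ)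
      have h2 : R σ (A1 out) + R σ (A2 out) ≤ ∑ i, (R σ (A1 i) + R σ (A2 i)) :=
        Finset.single_le_sum (fun i _ => hRnn i) (mem_univ out)
      exact le_trans h1 (mul_le_mul_of_nonneg_left h2 hB.le)
  have av := average hM (fun k : Fin s ⊕ Fin s => Sum.elim A1 A2 k)
    (by rintro (k | k); exacts [(hA k).b1, (hA k).b2]) (15 ^ M / B) (by positivity) (by
      intro σ
      rw [div_le_iff₀ hB, Fintype.sum_sum_type]
      simp only [Sum.elim_inl, Sum.elim_inr]
      rw [← Finset.sum_add_distrib, mul_comm]
      exact key σ)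
  rw [div_pow, div_le_iff₀ (by positivity)] at av
  calc (225 : ℝ) ^ M = (15 ^ M) ^ 2 := by
        rw [← pow_mul, mul_comm M 2, pow_mul]
        norm_num
    _ ≤ _ := av
    _ = 4 * ((s : ℝ) * B) ^ 2 * ((4 * M + 1) * 217 ^ M) := by
        simp only [Fintype.card_sum, Fintype.card_fin]
        push_cast
        ring

/-- complement of the `x`-variables -/
def ACirc.flip (C : ACirc n s W) : ACirc n s W where
  kind := C.kind
  scope := C.scope
  val i x w := C.val i (fun k => !(x k)) w
  abs i x w := C.abs i (fun k => !(x k)) w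
  leaf_ok i hi := ⟨(C.leaf_ok i hi).1, fun x y w h =>
    (C.leaf_ok i hi).2.1 _ _ w (fun k hk => by rw [h k hk]), fun x w => (C.leaf_ok i hi).2.2 _ w⟩
  mul_ok i a b hi := by
    obtain ⟨h1, h2, h3, h4, h5⟩ := C.mul_ok i a b hi
    exact ⟨h1, h2, h3, h4, fun x w => h5 _ w⟩
  lin_ok i α β a b hi := by
    obtain ⟨h1, h2, h3, h5⟩ := C.lin_ok i α β a b hi
    exact ⟨h1, h2, h3, fun x w => h5 _ w⟩

open Classical in
/-- the lower bound for arithmetic circuits, monotone form -/
theorem arith_bound_mono (hM : 1 ≤ M) (C : ACirc (4 * M) s W) (out : Fin s)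
    (om : (Fin M × Fin 4 ≃ Fin (4 * M)) → W) (B : ℝ)
    (hval : ∀ σ x, C.val out x (om σ) = if ∀ j, ∃ i, x (σ (j, i)) = true then 1 else 0)
    (habs : ∀ σ x, C.abs out x (om σ) ≤ B) :
    (225 : ℝ) ^ M ≤ 4 * (s * B) ^ 2 * ((4 * M + 1) * 217 ^ M) := by
  apply arith_bound hM C.flip out om B _ (fun σ x => habs σ _)
  intro σ x
  show C.val out (fun k => !(x k)) (om σ) = _
  rw [hval]
  have hb : (decide (∀ j, ∃ i, x (σ (j, i)) = false)) = true ↔
      ∀ j, ∃ i, x (σ (j, i)) = false := by simp
  rw [← bi_tgt hb]
  unfold bi
  by_cases h : ∀ j, ∃ i, x (σ (j, i)) = false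
  · rw [if_pos (by simpa using h), if_pos (by simpa using h)]
    simp
  · rw [if_neg (by simpa using h), if_neg (by simpa using h)]
    simp

end Pool.Agent.W933.DD
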