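import Pool.Agent.W933.DD.Base

set_option autoImplicit false

/-!
Correlation with products of real functions.
-/

namespace Pool.Agent.W933.DD

open Finset

variable {M n : ℕ}

/-- the real function depends only on the coordinates in `A` -/
def LOn (A : Finset (Fin n)) (u : (Fin n → Bool) → ℝ) : Prop :=
  ∀ x y, (∀ i ∈ A, x i = y i) → u x = u y

/-- the real function depends only on the coordinates outside `A` -/
def LOff (A : Finset (Fin n)) (u : (Fin n → Bool) → ℝ) : Prop :=
  ∀ x y, (∀ i, i ∉ A → x i = y i) → u x = u y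

theorem pair_sumR (A : Finset (Fin n)) (F u v : (Fin n → Bool) → ℝ)
    (hu : LOn A u) (hv : LOff A v) :
    ∑ x, ∑ y, F (mix A x y) * u x * v y = 2 ^ n * ∑ x, F x * u x * v x := by
  have h1 : ∀ p : (Fin n → Bool) × (Fin n → Bool),
      F (mix A p.1 p.2) * u p.1 * v p.2 =
        F ((swapE A p).1) * u ((swapE A p).1) * v ((swapE A p).1) := by
    intro p
    have e1 : u p.1 = u ((swapE A p).1) := by
      apply hu
      intro i hi
      simp [swapE, mix, hi]
    have e2 : v p.2 = v ((swapE A p).1) := by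
      apply hv
      intro i hi
      simp [swapE, mix, hi]
    rw [← e1, ← e2]
    rfl
  rw [← Fintype.sum_prod_type'
    (f := fun x y => F (mix A x y) * u x * v y)]
  rw [Finset.sum_congr rfl (fun p _ => h1 p)]
  rw [Equiv.sum_comp (swapE A) (fun p => F p.1 * u p.1 * v p.1)]
  rw [Fintype.sum_prod_type (f := fun p : (Fin n → Bool) × (Fin n → Bool) =>
    F p.1 * u p.1 * v p.1)]
  simp only [Finset.sum_const, Finset.card_univ, Fintype.card_fun, Fintype.card_bool,
    Fintype.card_fin, nsmul_eq_mul]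
  rw [Finset.mul_sum]
  push_cast
  rfl

theorem csR (σ : Fin M × Fin 4 ≃ Fin n) (A : Finset (Fin n)) (u v : (Fin n → Bool) → ℝ)
    (hu : LOn A u) (hv : LOff A v) (hu1 : ∀ x, |u x| ≤ 1) (hv1 : ∀ x, |v x| ≤ 1) :
    2 ^ n * (∑ x, (sgn σ x : ℝ) * u x * v x) ^ 2 ≤ ((∏ j, T (col σ A j) : ℤ) : ℝ) := by
  set S := ∑ x, (sgn σ x : ℝ) * u x * v x with hS
  have h1 : 2 ^ n * S = ∑ x, u x * ∑ y, (sgn σ (mix A x y) : ℝ) * v y := by
    rw [hS, ← pair_sumR A (fun x => (sgn σ x : ℝ)) u v hu hv]
    apply Finset.sum_congr rfl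
    intro x _
    rw [Finset.mul_sum]
    apply Finset.sum_congr rfl
    intro y _
    ring
  have h2 : (2 ^ n * S) ^ 2 ≤ 2 ^ n * ∑ x, (∑ y, (sgn σ (mix A x y) : ℝ) * v y) ^ 2 := by
    rw [h1]
    calc (∑ x, u x * ∑ y, (sgn σ (mix A x y) : ℝ) * v y) ^ 2
        ≤ (Finset.univ : Finset (Fin n → Bool)).card *
            ∑ x, (u x * ∑ y, (sgn σ (mix A x y) : ℝ) * v y) ^ 2 := sq_sum_le_card_mul_sum_sq
      _ = 2 ^ n * ∑ x, (u x * ∑ y, (sgn σ (mix A x y) : ℝ) * v y) ^ 2 := by
          simp
      _ ≤ 2 ^ n * ∑ x, (∑ y, (sgn σ (mix A x y) : ℝ) * v y) ^ 2 := by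
          apply mul_le_mul_of_nonneg_left _ (by positivity)
          apply Finset.sum_le_sum
          intro x _
          rw [mul_pow]
          have := (sq_le_one_iff_abs_le_one (u x)).2 (hu1 x)
          nlinarith [sq_nonneg (∑ y, (sgn σ (mix A x y) : ℝ) * v y)]
  have h3 : ∑ x, (∑ y, (sgn σ (mix A x y) : ℝ) * v y) ^ 2 ≤
      ∑ y, ∑ y', |∑ x, (sgn σ (mix A x y) : ℝ) * sgn σ (mix A x y')| := by
    calc ∑ x, (∑ y, (sgn σ (mix A x y) : ℝ) * v y) ^ 2
        = ∑ x, ∑ y, ∑ y', ((sgn σ (mix A x y) : ℝ) * v y) * (sgn σ (mix A x y') * v y') := by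
          apply Finset.sum_congr rfl
          intro x _
          rw [sq, Finset.sum_mul_sum]
      _ = ∑ y, ∑ y', ∑ x, ((sgn σ (mix A x y) : ℝ) * v y) * (sgn σ (mix A x y') * v y') := by
          rw [Finset.sum_comm]
          apply Finset.sum_congr rfl
          intro y _
          rw [Finset.sum_comm]
      _ = ∑ y, ∑ y', (v y * v y') * ∑ x, (sgn σ (mix A x y) : ℝ) * sgn σ (mix A x y') := by
          apply Finset.sum_congr rfl
          intro y _
          apply Finset.sum_congr rfl
          intro y' _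
          rw [Finset.mul_sum]
          apply Finset.sum_congr rfl
          intro x _
          ring
      _ ≤ ∑ y, ∑ y', |∑ x, (sgn σ (mix A x y) : ℝ) * sgn σ (mix A x y')| := by
          apply Finset.sum_le_sum
          intro y _
          apply Finset.sum_le_sum
          intro y' _
          refine le_trans (le_abs_self _) ?_
          rw [abs_mul, abs_mul]
          have a1 := hv1 y
          have a2 := hv1 y'
          have a3 : |v y| * |v y'| ≤ 1 := by
            nlinarith [abs_nonneg (v y), abs_nonneg (v y')]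
          nlinarith [abs_nonneg (∑ x, (sgn σ (mix A x y) : ℝ) * sgn σ (mix A x y'))]
  have h5 : ∑ y, ∑ y', |∑ x, (sgn σ (mix A x y) : ℝ) * sgn σ (mix A x y')| =
      ((∏ j, T (col σ A j) : ℤ) : ℝ) := by
    rw [← total_cross]
    push_cast
    rfl
  rw [h5] at h3
  have h4 : (2 : ℝ) ^ n * (2 ^ n * S ^ 2) ≤ 2 ^ n * ((∏ j, T (col σ A j) : ℤ) : ℝ) := by
    calc (2 : ℝ) ^ n * (2 ^ n * S ^ 2) = (2 ^ n * S) ^ 2 := by ring
      _ ≤ _ := h2
      _ ≤ _ := mul_le_mul_of_nonneg_left h3 (by positivity)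
  exact le_of_mul_le_mul_left h4 (by positivity)

/-- correlation with the block sign -/
def ipR (σ : Fin M × Fin 4 ≃ Fin n) (g : (Fin n → Bool) → ℝ) : ℝ := ∑ x, (sgn σ x : ℝ) * g x

theorem cs2R (σ : Fin M × Fin 4 ≃ Fin n) (A : Finset (Fin n)) (u v : (Fin n → Bool) → ℝ)
    (hu : LOn A u) (hv : LOff A v) (hu1 : ∀ x, |u x| ≤ 1) (hv1 : ∀ x, |v x| ≤ 1) :
    |ipR σ (fun x => u x * v x)| ≤ R σ A := by
  have key : 2 ^ n * (ipR σ (fun x => u x * v x)) ^ 2 ≤ (R2 σ A : ℝ) := by
    unfold R2 small ipR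
    split
    · have := csR σ A u v hu hv hu1 hv1
      simpa only [mul_assoc] using this
    · have := csR σ Aᶜ v u (by
        intro x y h
        apply hv
        intro i hi
        exact h i (by simpa using hi)) (by
        intro x y h
        apply hu
        intro i hi
        exact h i (by simpa using hi)) hv1 hu1
      have e : ∑ x, (sgn σ x : ℝ) * v x * u x = ∑ x, (sgn σ x : ℝ) * (u x * v x) := by
        apply Finset.sum_congr rfl
        intro x _
        ring
      rw [e] at this
      exact this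
  unfold R
  apply Real.abs_le_sqrt
  rw [le_div_iff₀ (by positivity)]
  linarith

theorem ipR_mul_const (σ : Fin M × Fin 4 ≃ Fin n) (c : ℝ) (g : (Fin n → Bool) → ℝ) :
    ipR σ (fun x => c * g x) = c * ipR σ g := by
  unfold ipR
  rw [Finset.mul_sum]
  apply Finset.sum_congr rfl
  intro x _
  ring

/-- products of functions whose product is bounded -/
theorem ipR_le (σ : Fin M × Fin 4 ≃ Fin n) (A : Finset (Fin n)) (u v : (Fin n → Bool) → ℝ)
    (B : ℝ) (hB : 0 < B) (hu : LOn A u) (hv : LOff A v) (huv : ∀ x y, |u x| * |v y| ≤ B) :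
    |ipR σ (fun x => u x * v x)| ≤ B * R σ A := by
  obtain ⟨x0, -, hx0⟩ := Finset.exists_max_image (univ : Finset (Fin n → Bool))
    (fun x => |u x|) ⟨fun _ => false, mem_univ _⟩
  rcases eq_or_lt_of_le (abs_nonneg (u x0)) with h0 | h0
  · have hu0 : ∀ x, u x = 0 := by
      intro x
      have := hx0 x (mem_univ x)
      rw [← h0] at this
      exact abs_eq_zero.1 (le_antisymm this (abs_nonneg _))
    have e : ipR σ (fun x => u x * v x) = 0 := by
      unfold ipR
      apply Finset.sum_eq_zero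
      intro x _
      show (sgn σ x : ℝ) * (u x * v x) = 0
      rw [hu0]
      ring
    rw [e, abs_zero]
    exact mul_nonneg hB.le (R_nonneg _ _)
  · set p := |u x0| with hp
    have e : (fun x => u x * v x) = fun x => B * ((u x / p) * (v x * p / B)) := by
      funext x
      field_simp
    rw [e, ipR_mul_const, abs_mul, abs_of_pos hB]
    apply mul_le_mul_of_nonneg_left _ hB.le
    apply cs2R σ A (fun x => u x / p) (fun x => v x * p / B)
    · intro x y hxy
      show u x / p = u y / p
      rw [hu x y hxy]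
    · intro x y hxy
      show v x * p / B = v y * p / B
      rw [hv x y hxy]
    · intro x
      rw [abs_div, abs_of_pos h0, div_le_one h0]
      exact hx0 x (mem_univ x)
    · intro x
      rw [abs_div, abs_mul, abs_of_pos hB, abs_of_pos h0, div_le_one hB, mul_comm]
      exact huv x0 x

end Pool.Agent.W933.DD
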