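import Mathlib

set_option autoImplicit false

/-!
Graphs with a marked matching, given by Boolean vectors.
-/

namespace Pool.Agent.W933.DD

/-- the vertices: the ends `(i, false)`, `(i, true)` of the `m` marked edges, and the elements
of `R` -/
abbrev Vtx (m : ℕ) (R : Type) : Type := (Fin m × Bool) ⊕ R

/-- The graph whose marked edge number `i` is present if `x i = true`, and whose other edges `e`
are present if `w e = true`. -/
def graphOf {m : ℕ} {R : Type} (x : Fin m → Bool) (w : Sym2 (Vtx m R) → Bool) :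
    SimpleGraph (Vtx m R) where
  Adj u v := u ≠ v ∧
    ((∃ i b, u = Sum.inl (i, b) ∧ v = Sum.inl (i, !b) ∧ x i = true) ∨
      ((∀ i b, ¬ (u = Sum.inl (i, b) ∧ v = Sum.inl (i, !b))) ∧ w s(u, v) = true))
  symm := ⟨by
    rintro u v ⟨h1, h2⟩
    refine ⟨h1.symm, ?_⟩
    rcases h2 with ⟨i, b, hu, hv, hx⟩ | ⟨h3, h4⟩
    · exact Or.inl ⟨i, !b, hv, by rw [Bool.not_not]; exact hu, hx⟩
    · refine Or.inr ⟨fun i b h => h3 i (!b) ⟨by rw [h.2], by rw [Bool.not_not]; exact h.1⟩, ?_⟩
      rw [Sym2.eq_swap]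
      exact h4⟩
  loopless := ⟨fun _ h => h.1 rfl⟩

end Pool.Agent.W933.DD
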