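import Pool.Agent.W933.DD.CliqueDefs

set_option autoImplicit false

/-!
Two-terminal connectivity.
-/

namespace Pool.Agent.W933.DD

/-- The vertices of a graph with two terminals: the ends of the marked edges, and the further
vertices `0, …, M`, the first and the last of which are the terminals. -/
abbrev VC (M : ℕ) : Type := Vtx (4 * M) (Fin (M + 1))

/-- the first terminal -/
def src (M : ℕ) : VC M := Sum.inr 0

/-- the second terminal -/
def trg (M : ℕ) : VC M := Sum.inr (Fin.last M)

end Pool.Agent.W933.DD
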