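import Pool.Agent.W933.DD.Main
import Pool.Agent.W933.DD.Arith
import Pool.Agent.W933.DD.ConnDefs

set_option autoImplicit false

/-!
The lower bounds for two-terminal connectivity.
-/

namespace Pool.Agent.W933.DD

open Finset

variable {M : ℕ}

/-- the fixed edges: from the terminal `j` to the first ends of the marked edges of block `j`, and
from their second ends to the terminal `j + 1` -/
def relN (σ : Fin M × Fin 4 ≃ Fin (4 * M)) : VC M → VC M → Prop
  | Sum.inl p, Sum.inr t => (p.2 = false ∧ t = (σ.symm p.1).1.castSucc) ∨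
      (p.2 = true ∧ t = (σ.symm p.1).1.succ)
  | Sum.inr t, Sum.inl p => (p.2 = false ∧ t = (σ.symm p.1).1.castSucc) ∨
      (p.2 = true ∧ t = (σ.symm p.1).1.succ)
  | _, _ => False

open Classical in
/-- the fixed edges as a vector -/
noncomputable def omN (σ : Fin M × Fin 4 ≃ Fin (4 * M)) : Sym2 (VC M) → Bool :=
  fun e => decide (∃ u v, e = s(u, v) ∧ relN σ u v)

theorem relN_symm (σ : Fin M × Fin 4 ≃ Fin (4 * M)) (u v : VC M)
    (h : relN σ u v) : relN σ v u := by
  rcases u with p | t <;> rcases v with p' | t' <;> simp only [relN] at h ⊢ <;> exact h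

theorem omN_iff (σ : Fin M × Fin 4 ≃ Fin (4 * M)) (u v : VC M) :
    omN σ s(u, v) = true ↔ relN σ u v := by
  simp only [omN, decide_eq_true_eq]
  constructor
  · rintro ⟨u', v', h1, h2⟩
    rw [Sym2.eq_iff] at h1
    rcases h1 with ⟨rfl, rfl⟩ | ⟨rfl, rfl⟩
    · exact h2
    · exact relN_symm σ _ _ h2
  · intro h
    exact ⟨u, v, rfl, h⟩

/-- the side of the cut in block `j` -/
def side (σ : Fin M × Fin 4 ≃ Fin (4 * M)) (j : Fin M) : VC M → Prop
  | Sum.inl p => (σ.symm p.1).1.val < j.val ∨ ((σ.symm p.1).1 = j ∧ p.2 = false)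
  | Sum.inr t => t.val ≤ j.val

theorem side_adj (σ : Fin M × Fin 4 ≃ Fin (4 * M)) (x : Fin (4 * M) → Bool) (j : Fin M)
    (hx : ∀ i, x (σ (j, i)) ≠ true) (u v : VC M) (h : (graphOf x (omN σ)).Adj u v)
    (hu : side σ j u) : side σ j v := by
  rcases h.2 with ⟨i, b, rfl, rfl, h3⟩ | ⟨_, h1⟩
  · simp only [side] at hu ⊢
    rcases hu with hu | ⟨hu, _⟩
    · exact Or.inl hu
    · exfalso
      apply hx (σ.symm i).2
      rw [← hu]
      have : ((σ.symm i).1, (σ.symm i).2) = σ.symm i := rfl
      rw [this, Equiv.apply_symm_apply]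
      exact h3
  · rw [omN_iff] at h1
    rcases u with p | t <;> rcases v with p' | t'
    · exact h1.elim
    · simp only [relN] at h1
      simp only [side] at hu ⊢
      rcases h1 with ⟨h1, rfl⟩ | ⟨h1, rfl⟩
      · rcases hu with hu | ⟨hu, _⟩
        · simp only [Fin.val_castSucc]
          omega
        · simp only [Fin.val_castSucc, hu]
          omega
      · rcases hu with hu | ⟨hu, h4⟩
        · simp only [Fin.val_succ]
          omega
        · rw [h1] at h4
          exact absurd h4 (by simp)
    · simp only [relN] at h1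
      simp only [side] at hu ⊢
      rcases h1 with ⟨h1, rfl⟩ | ⟨h1, rfl⟩
      · simp only [Fin.val_castSucc] at hu
        rcases Nat.lt_or_eq_of_le hu with h5 | h5
        · exact Or.inl h5
        · exact Or.inr ⟨Fin.ext h5, h1⟩
      · simp only [Fin.val_succ] at hu
        exact Or.inl (by omega)
    · exact h1.elim

theorem conn_om (σ : Fin M × Fin 4 ≃ Fin (4 * M)) (x : Fin (4 * M) → Bool) :
    (graphOf x (omN σ)).Reachable (src M) (trg M) ↔ ∀ j, ∃ i, x (σ (j, i)) = true := by
  constructor
  · intro h j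
    by_contra hx
    push Not at hx
    have key : ∀ u v, (graphOf x (omN σ)).Reachable u v → side σ j u → side σ j v := by
      rintro u v ⟨p⟩
      induction p with
      | nil => exact fun h => h
      | cons h _ ih => exact fun hu => ih (side_adj σ x j hx _ _ h hu)
    have h1 := key _ _ h (by show (0 : Fin (M + 1)).val ≤ j.val; simp)
    have h2 : (Fin.last M).val ≤ j.val := h1
    have := j.isLt
    simp only [Fin.val_last] at h2
    omega
  · intro h
    choose c hc using h
    have step : ∀ j : Fin M, (graphOf x (omN σ)).Reachable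
        (Sum.inr j.castSucc : VC M) (Sum.inr j.succ) := by
      intro j
      have a1 : (graphOf x (omN σ)).Adj (Sum.inr j.castSucc : VC M)
          (Sum.inl (σ (j, c j), false)) := by
        refine ⟨by simp, Or.inr ⟨?_, ?_⟩⟩
        · rintro i b ⟨h1, _⟩
          exact absurd h1 (by simp)
        · rw [omN_iff]
          simp [relN]
      have a2 : (graphOf x (omN σ)).Adj (Sum.inl (σ (j, c j), false) : VC M)
          (Sum.inl (σ (j, c j), true)) :=
        ⟨by simp, Or.inl ⟨σ (j, c j), false, rfl, rfl, hc j⟩⟩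
      have a3 : (graphOf x (omN σ)).Adj (Sum.inl (σ (j, c j), true) : VC M)
          (Sum.inr j.succ) := by
        refine ⟨by simp, Or.inr ⟨?_, ?_⟩⟩
        · rintro i b ⟨_, h1⟩
          exact absurd h1 (by simp)
        · rw [omN_iff]
          simp [relN]
      exact (a1.reachable.trans a2.reachable).trans a3.reachable
    have all : ∀ k (hk : k ≤ M), (graphOf x (omN σ)).Reachable (src M)
        (Sum.inr ⟨k, by omega⟩ : VC M) := by
      intro k
      induction k with
      | zero => intro _; exact SimpleGraph.Reachable.refl _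
      | succ k ih =>
        intro hk
        exact (ih (by omega)).trans (step ⟨k, by omega⟩)
    exact all M le_rfl

theorem conn_bound {s : ℕ} (hM : 1 ≤ M)
    (C : Circ (4 * M) s (Sym2 (VC M) → Bool)) (d : Fin s → ℕ) (hd : C.NegDepth d)
    (out : Fin s)
    (h : ∀ x w, C.val out x w = true ↔ (graphOf x w).Reachable (src M) (trg M)) :
    225 ^ M ≤ 4 * (s * ∑ j ∈ Finset.range (d out + 1), C.nots.card.choose j) ^ 2 *
      ((4 * M + 1) * 217 ^ M) :=
  circuit_bound_mono hM C d hd out omN (fun σ x => by rw [h, conn_om])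

open Classical in
theorem conn_arith {s : ℕ} (hM : 1 ≤ M) (C : ACirc (4 * M) s (Sym2 (VC M) → Bool)) (out : Fin s)
    (B : ℝ)
    (hval : ∀ x w, C.val out x w =
      if (graphOf x w).Reachable (src M) (trg M) then 1 else 0)
    (habs : ∀ x w, C.abs out x w ≤ B) :
    (225 : ℝ) ^ M ≤ 4 * (s * B) ^ 2 * ((4 * M + 1) * 217 ^ M) := by
  apply arith_bound_mono hM C out omN B _ (fun σ x => habs x (omN σ))
  intro σ x
  rw [hval]
  simp only [conn_om]

end Pool.Agent.W933.DD
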