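import Pool.Agent.W933.DD.CliqueDefs

set_option autoImplicit false

/-!
Hamilton cycles.
-/

namespace Pool.Agent.W933.DD

/-- A graph with `N ≥ 3` vertices has a Hamilton cycle: there is an enumeration `c` of the
vertices, with period `N`, which visits every vertex exactly once in a period and in which
consecutive vertices are adjacent. -/
def HasHamCycle {V : Type} (N : ℕ) (G : SimpleGraph V) : Prop :=
  ∃ c : ℕ → V, (∀ k, c (k + N) = c k) ∧ (∀ v, ∃! k, k < N ∧ c k = v) ∧
    ∀ k, G.Adj (c k) (c (k + 1))

end Pool.Agent.W933.DD
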