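import Pool.Agent.W933.DD.Main
import Pool.Agent.W933.DD.HamDefs

set_option autoImplicit false

/-!
The lower bound for Hamiltonicity.
-/

namespace Pool.Agent.W933.DD

open Finset

variable {M : ℕ}

/-- the vertices of the construction -/
abbrev VH (M : ℕ) : Type := Vtx (4 * M) (Fin M × Fin 8)

/-- the fixed edges: all pairs of connectors, and the ends of marked edges with the connectors of
their block -/
def relH (σ : Fin M × Fin 4 ≃ Fin (4 * M)) : VH M → VH M → Prop
  | Sum.inl _, Sum.inl _ => False
  | Sum.inl p, Sum.inr t => (σ.symm p.1).1 = t.1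
  | Sum.inr t, Sum.inl p => (σ.symm p.1).1 = t.1
  | Sum.inr _, Sum.inr _ => True

open Classical in
/-- the fixed edges as a vector -/
noncomputable def omH (σ : Fin M × Fin 4 ≃ Fin (4 * M)) : Sym2 (VH M) → Bool :=
  fun e => decide (∃ u v, e = s(u, v) ∧ relH σ u v)

theorem relH_symm (σ : Fin M × Fin 4 ≃ Fin (4 * M)) (u v : VH M)
    (h : relH σ u v) : relH σ v u := by
  rcases u with p | t <;> rcases v with p' | t' <;> simp only [relH] at h ⊢ <;> exact h

theorem omH_iff (σ : Fin M × Fin 4 ≃ Fin (4 * M)) (u v : VH M) :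
    omH σ s(u, v) = true ↔ relH σ u v := by
  simp only [omH, decide_eq_true_eq]
  constructor
  · rintro ⟨u', v', h1, h2⟩
    rw [Sym2.eq_iff] at h1
    rcases h1 with ⟨rfl, rfl⟩ | ⟨rfl, rfl⟩
    · exact h2
    · exact relH_symm σ _ _ h2
  · intro h
    exact ⟨u, v, rfl, h⟩

/-- the order of the vertices of a block in the cycle -/
def pat : Fin 16 → (Fin 4 × Bool) ⊕ Fin 8 :=
  ![Sum.inr 0, Sum.inl (1, false), Sum.inr 1, Sum.inl (1, true), Sum.inr 2, Sum.inl (2, false),
    Sum.inr 3, Sum.inl (2, true), Sum.inr 4, Sum.inl (3, false), Sum.inr 5, Sum.inl (3, true),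
    Sum.inr 6, Sum.inl (0, false), Sum.inl (0, true), Sum.inr 7]

theorem pat_bij : Function.Bijective pat := by
  constructor
  · decide
  · decide

/-- admissible neighbours in the pattern -/
def okb : (Fin 4 × Bool) ⊕ Fin 8 → (Fin 4 × Bool) ⊕ Fin 8 → Bool
  | Sum.inl p, Sum.inl p' => decide (p = (0, false) ∧ p' = (0, true))
  | Sum.inl _, Sum.inr _ => true
  | Sum.inr _, Sum.inl _ => true
  | Sum.inr _, Sum.inr _ => false

theorem pat_ok : ∀ r : Fin 15, okb (pat r.castSucc) (pat r.succ) = true := by
  decide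

/-- the vertices, block by block -/
def vE (σ : Fin M × Fin 4 ≃ Fin (4 * M)) (c : Fin M → Fin 4) :
    Fin M × ((Fin 4 × Bool) ⊕ Fin 8) ≃ VH M where
  toFun p := match p with
    | (j, Sum.inl (i, b)) => Sum.inl (σ (j, i + c j), b)
    | (j, Sum.inr t) => Sum.inr (j, t)
  invFun v := match v with
    | Sum.inl (k, b) => ((σ.symm k).1, Sum.inl ((σ.symm k).2 - c (σ.symm k).1, b))
    | Sum.inr (j, t) => (j, Sum.inr t)
  left_inv p := by
    rcases p with ⟨j, ⟨i, b⟩ | t⟩ <;> simp
  right_inv v := by
    rcases v with ⟨k, b⟩ | ⟨j, t⟩ <;> simp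

theorem vE_adj (σ : Fin M × Fin 4 ≃ Fin (4 * M)) (c : Fin M → Fin 4) (x : Fin (4 * M) → Bool)
    (hc : ∀ j, x (σ (j, c j)) = true) (j : Fin M) (a b : (Fin 4 × Bool) ⊕ Fin 8)
    (h : okb a b = true) : (graphOf x (omH σ)).Adj (vE σ c (j, a)) (vE σ c (j, b)) := by
  rcases a with p | t <;> rcases b with p' | t'
  · simp only [okb, decide_eq_true_eq] at h
    obtain ⟨rfl, rfl⟩ := h
    refine ⟨?_, Or.inl ⟨σ (j, 0 + c j), false, rfl, rfl, ?_⟩⟩
    · intro h
      have := (vE σ c).injective h
      simp at this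
    · rw [zero_add]
      exact hc j
  · refine ⟨?_, Or.inr ⟨?_, ?_⟩⟩
    · intro h
      have := (vE σ c).injective h
      simp at this
    · rintro i b ⟨_, h2⟩
      exact absurd h2 (by simp [vE])
    · rw [omH_iff]
      simp [vE, relH]
  · refine ⟨?_, Or.inr ⟨?_, ?_⟩⟩
    · intro h
      have := (vE σ c).injective h
      simp at this
    · rintro i b ⟨h1, _⟩
      exact absurd h1 (by simp [vE])
    · rw [omH_iff]
      simp [vE, relH]
  · simp [okb] at h

theorem ham_of (σ : Fin M × Fin 4 ≃ Fin (4 * M)) (x : Fin (4 * M) → Bool) (hM : 1 ≤ M)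
    (h : ∀ j, ∃ i, x (σ (j, i)) = true) : HasHamCycle (16 * M) (graphOf x (omH σ)) := by
  choose c hc using h
  set J : ℕ → Fin M := fun k => ⟨k / 16 % M, Nat.mod_lt _ (by omega)⟩ with hJ
  set Rr : ℕ → Fin 16 := fun k => ⟨k % 16, Nat.mod_lt _ (by norm_num)⟩ with hR
  refine ⟨fun k => vE σ c (J k, pat (Rr k)), ?_, ?_, ?_⟩
  · intro k
    have e1 : J (k + 16 * M) = J k := by
      apply Fin.ext
      show (k + 16 * M) / 16 % M = k / 16 % M
      rw [Nat.add_mul_div_left _ _ (by norm_num), Nat.add_mod_right]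
    have e2 : Rr (k + 16 * M) = Rr k := by
      apply Fin.ext
      show (k + 16 * M) % 16 = k % 16
      omega
    show vE σ c (J (k + 16 * M), pat (Rr (k + 16 * M))) = vE σ c (J k, pat (Rr k))
    rw [e1, e2]
  · intro v
    obtain ⟨⟨j, a⟩, hv⟩ := (vE σ c).surjective v
    obtain ⟨r, hr⟩ := pat_bij.2 a
    refine ⟨16 * j.val + r.val, ⟨?_, ?_⟩, ?_⟩
    · have := j.isLt
      have := r.isLt
      omega
    · show vE σ c (J _, pat (Rr _)) = v
      have e1 : J (16 * j.val + r.val) = j := by
        apply Fin.ext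
        show (16 * j.val + r.val) / 16 % M = j.val
        have h1 : (16 * j.val + r.val) / 16 = j.val := by
          have := r.isLt
          omega
        rw [h1, Nat.mod_eq_of_lt j.isLt]
      have e2 : Rr (16 * j.val + r.val) = r := by
        apply Fin.ext
        show (16 * j.val + r.val) % 16 = r.val
        have := r.isLt
        omega
      rw [e1, e2, hr, hv]
    · rintro k ⟨hk, hkv⟩
      have h1 : vE σ c (J k, pat (Rr k)) = vE σ c (j, a) := by
        rw [hv]
        exact hkv
      have h2 := (vE σ c).injective h1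
      simp only [Prod.mk.injEq] at h2
      have h3 : Rr k = r := pat_bij.1 (by rw [h2.2, hr])
      have h4 : k / 16 % M = j.val := congrArg Fin.val h2.1
      have h5 : k % 16 = r.val := congrArg Fin.val h3
      have h6 : k / 16 < M := by omega
      rw [Nat.mod_eq_of_lt h6] at h4
      omega
  · intro k
    show (graphOf x (omH σ)).Adj (vE σ c (J k, pat (Rr k))) (vE σ c (J (k + 1), pat (Rr (k + 1))))
    by_cases hk : k % 16 = 15
    · have e1 : Rr k = 15 := Fin.ext hk
      have e2 : Rr (k + 1) = 0 := by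
        apply Fin.ext
        show (k + 1) % 16 = 0
        omega
      rw [e1, e2]
      have p1 : pat 15 = Sum.inr 7 := rfl
      have p2 : pat 0 = Sum.inr 0 := rfl
      rw [p1, p2]
      refine ⟨?_, Or.inr ⟨?_, ?_⟩⟩
      · intro h
        have := (vE σ c).injective h
        simp at this
      · rintro i b ⟨h1, _⟩
        exact absurd h1 (by simp [vE])
      · rw [omH_iff]
        simp [vE, relH]
    · have hlt : k % 16 < 15 := by
        have := Nat.mod_lt k (show 0 < 16 by norm_num)
        omega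
      have e1 : Rr k = (⟨k % 16, hlt⟩ : Fin 15).castSucc := rfl
      have e2 : Rr (k + 1) = (⟨k % 16, hlt⟩ : Fin 15).succ := by
        apply Fin.ext
        show (k + 1) % 16 = k % 16 + 1
        omega
      have e3 : J (k + 1) = J k := by
        apply Fin.ext
        show (k + 1) / 16 % M = k / 16 % M
        congr 1
        omega
      rw [e1, e2, e3]
      exact vE_adj σ c x hc (J k) _ _ (pat_ok _)

theorem ham_only (σ : Fin M × Fin 4 ≃ Fin (4 * M)) (x : Fin (4 * M) → Bool) (hM : 2 ≤ M)
    (h : HasHamCycle (16 * M) (graphOf x (omH σ))) (j : Fin M) : ∃ i, x (σ (j, i)) = true := by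
  classical
  by_contra hx
  push Not at hx
  obtain ⟨c, hper, huniq, hadj⟩ := h
  set N := 16 * M with hN
  have hNpos : 0 < N := by omega
  -- indices
  have hmod : ∀ k, c (k % N) = c k := by
    have step : ∀ q k, c (k + N * q) = c k := by
      intro q
      induction q with
      | zero => intro k; simp
      | succ q ih =>
        intro k
        rw [Nat.mul_succ, ← Nat.add_assoc, hper, ih]
    intro k
    have := step (k / N) (k % N)
    rw [Nat.mod_add_div] at this
    exact this.symm
  have hinj : ∀ k k', c k = c k' → k % N = k' % N := by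
    intro k k' h
    obtain ⟨k0, _, hk0⟩ := huniq (c k)
    have h1 := hk0 (k % N) ⟨Nat.mod_lt _ hNpos, hmod k⟩
    have h2 := hk0 (k' % N) ⟨Nat.mod_lt _ hNpos, by rw [hmod, h]⟩
    rw [h1, h2]
  choose idx hidx _ using huniq
  -- the ends of the marked edges of the block, and its connectors
  set I : Finset (VH M) := (univ : Finset (Fin 4 × Bool)).map
    ⟨fun p => Sum.inl (σ (j, p.1), p.2), by
      intro p p' h
      have h1 := Sum.inl_injective h
      simp only [Prod.mk.injEq, EmbeddingLike.apply_eq_iff_eq, true_and] at h1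
      exact Prod.ext h1.1 h1.2⟩ with hI
  set K : Finset (VH M) := (univ : Finset (Fin 8)).map
    ⟨fun t => Sum.inr (j, t), by
      intro t t' h
      have h1 := Sum.inr_injective h
      simp only [Prod.mk.injEq, true_and] at h1
      exact h1⟩ with hK
  have cI : I.card = 8 := by rw [hI, card_map]; simp
  have cK : K.card = 8 := by rw [hK, card_map]; simp
  have memK : ∀ t : Fin M × Fin 8, t.1 = j → (Sum.inr t : VH M) ∈ K := by
    rintro ⟨t1, t2⟩ rfl
    rw [hK, mem_map]
    exact ⟨t2, mem_univ _, rfl⟩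
  -- neighbours of the elements of `I`
  have hnb : ∀ v ∈ I, ∀ u, (graphOf x (omH σ)).Adj v u → u ∈ K := by
    intro v hv u hvu
    rw [hI, mem_map] at hv
    obtain ⟨⟨i, b⟩, _, rfl⟩ := hv
    rcases hvu.2 with ⟨i', b', h1, h2, h3⟩ | ⟨_, h1⟩
    · exfalso
      have e1 := Sum.inl_injective h1
      simp only [Prod.mk.injEq] at e1
      rw [← e1.1] at h3
      exact hx i h3
    · rw [omH_iff] at h1
      rcases u with p | t
      · exact h1.elim
      · apply memK
        have : (σ.symm (σ (j, i))).1 = t.1 := h1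
        rw [Equiv.symm_apply_apply] at this
        exact this.symm
  -- predecessors
  have hpre : ∀ v ∈ I, c (idx v + (N - 1)) ∈ K := by
    intro v hv
    apply hnb v hv
    have h1 := hadj (idx v + (N - 1))
    have h2 : c (idx v + (N - 1) + 1) = v := by
      rw [Nat.add_assoc, Nat.sub_add_cancel (by omega), hper]
      exact (hidx v).2
    rw [h2] at h1
    exact h1.symm
  have hpreinj : Set.InjOn (fun v => c (idx v + (N - 1))) I := by
    intro v _ v' _ h
    have h1 := hinj _ _ h
    have h2 : (idx v + (N - 1) + 1) % N = (idx v' + (N - 1) + 1) % N := by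
      rw [Nat.add_mod, h1, ← Nat.add_mod]
    have h3 : c (idx v + (N - 1) + 1) = c (idx v' + (N - 1) + 1) := by
      rw [← hmod, h2, hmod]
    rw [Nat.add_assoc, Nat.sub_add_cancel (by omega), hper, Nat.add_assoc,
      Nat.sub_add_cancel (by omega), hper, (hidx v).2, (hidx v').2] at h3
    exact h3
  have himg : I.image (fun v => c (idx v + (N - 1))) = K := by
    apply eq_of_subset_of_card_le
    · intro u hu
      rw [mem_image] at hu
      obtain ⟨v, hv, rfl⟩ := hu
      exact hpre v hv
    · rw [card_image_of_injOn hpreinj, cI, cK]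
  -- the successor of a connector of the block is in `I`
  have hsucc : ∀ k, c k ∈ K → c (k + 1) ∈ I := by
    intro k hk
    rw [← himg, mem_image] at hk
    obtain ⟨v, hv, hvk⟩ := hk
    have h1 := hinj _ _ hvk
    have h2 : (idx v + (N - 1) + 1) % N = (k + 1) % N := by
      rw [Nat.add_mod, h1, ← Nat.add_mod]
    have h3 : c (k + 1) = c (idx v + (N - 1) + 1) := by
      rw [← hmod (k + 1), ← h2, hmod]
    rw [h3, Nat.add_assoc, Nat.sub_add_cancel (by omega), hper, (hidx v).2]
    exact hv
  have hall : ∀ k0 k, c k0 ∈ I ∪ K → c (k0 + k) ∈ I ∪ K := by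
    intro k0 k h0
    induction k with
    | zero => exact h0
    | succ k ih =>
      rw [mem_union] at ih ⊢
      rcases ih with h | h
      · right
        exact hnb _ h _ (hadj _)
      · left
        exact hsucc _ h
  -- a vertex of another block
  obtain ⟨j', hj'⟩ : ∃ j' : Fin M, j' ≠ j := by
    by_cases h0 : j.val = 0
    · exact ⟨⟨1, by omega⟩, fun h => by rw [← h] at h0; simp at h0⟩
    · exact ⟨⟨0, by omega⟩, fun h => h0 (by rw [← h])⟩
  set v0 : VH M := Sum.inr (j, 0) with hv0
  set v1 : VH M := Sum.inr (j', 0) with hv1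
  have h0 : c (idx v0) ∈ I ∪ K := by
    rw [(hidx v0).2, mem_union]
    right
    exact memK (j, 0) rfl
  have h1 := hall (idx v0) (idx v1 + (N - idx v0)) h0
  have h2 : idx v0 + (idx v1 + (N - idx v0)) = idx v1 + N := by
    have := (hidx v0).1
    omega
  rw [h2, hper, (hidx v1).2, mem_union] at h1
  rcases h1 with h | h
  · rw [hI, mem_map] at h
    obtain ⟨p, _, hp⟩ := h
    exact absurd hp (by simp [hv1])
  · rw [hK, mem_map] at h
    obtain ⟨t, _, ht⟩ := h
    have := Sum.inr_injective ht
    simp only [Prod.mk.injEq] at this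
    exact hj' this.1.symm

theorem ham_bound {s : ℕ} (hM : 2 ≤ M)
    (C : Circ (4 * M) s (Sym2 (VH M) → Bool)) (d : Fin s → ℕ) (hd : C.NegDepth d)
    (out : Fin s)
    (h : ∀ x w, C.val out x w = true ↔ HasHamCycle (16 * M) (graphOf x w)) :
    225 ^ M ≤ 4 * (s * ∑ j ∈ Finset.range (d out + 1), C.nots.card.choose j) ^ 2 *
      ((4 * M + 1) * 217 ^ M) :=
  circuit_bound_mono (by omega) C d hd out (fun σ => omH σ)
    (fun σ x => by
      rw [h]
      exact ⟨fun hh j => ham_only σ x hM hh j, fun hh => ham_of σ x (by omega) hh⟩)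

end Pool.Agent.W933.DD
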